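import Pool.Agent.H64.G.T9f66d723.W5h27.MO.Conj

/-! # Quadratic forms of the Cauchy-Green tensor: algebra

`bf q x y`, `q = (A, B, C, D, E, G)`, is the symmetric bilinear form on the triples `x = (p, r, s)`
(entries `p = c₀₀`, `r = c₁₁`, `s = c₀₁` of a symmetric matrix). -/

set_option autoImplicit false

open Set Filter Topology Matrix

namespace Pool.Agent.H64.CG

/-- coefficients of a quadratic form on symmetric `2 × 2` matrices -/
structure Co where
  A : ℝ
  B : ℝ
  C : ℝ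
  D : ℝ
  E : ℝ
  G : ℝ

/-- the bilinear form -/
def bf (q : Co) (x y : Fin 3 → ℝ) : ℝ :=
  q.A * (x 0 * y 0) + q.B * (x 1 * y 1) + q.C * (x 2 * y 2) + q.D * (x 0 * y 1 + x 1 * y 0)
    + q.E * (x 0 * y 2 + x 2 * y 0) + q.G * (x 1 * y 2 + x 2 * y 1)

/-- `u ⊗ u` -/
def sq (u : Fin 2 → ℝ) : Fin 3 → ℝ := ![u 0 ^ 2, u 1 ^ 2, u 0 * u 1]

/-- `(u ⊗ n + n ⊗ u) / 2` -/
noncomputable def sp (u n : Fin 2 → ℝ) : Fin 3 → ℝ := ![u 0 * n 0, u 1 * n 1, (u 0 * n 1 + u 1 * n 0) / 2]

/-- `u ∧ n` -/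
def wd (u n : Fin 2 → ℝ) : ℝ := u 0 * n 1 - u 1 * n 0

/-- add `α det` -/
noncomputable def shift (q : Co) (α : ℝ) : Co := ⟨q.A, q.B, q.C - α, q.D + α / 2, q.E, q.G⟩

theorem bf_sq_sq (q : Co) (u n : Fin 2 → ℝ) : bf q (sq u) (sq n)
    = bf q (sp u n) (sp u n) + (q.D - q.C / 4) * wd u n ^ 2 := by
  simp only [bf, sq, sp, wd, Matrix.cons_val_zero, Matrix.cons_val_one, Matrix.cons_val]
  ring

theorem bf_shift (q : Co) (α : ℝ) (u n : Fin 2 → ℝ) :
    bf (shift q α) (sq u) (sq n) = bf q (sq u) (sq n) + α / 2 * wd u n ^ 2 := by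
  simp only [bf, sq, shift, wd, Matrix.cons_val_zero, Matrix.cons_val_one, Matrix.cons_val]
  ring

theorem bf_shift_sp (q : Co) (α : ℝ) (u n : Fin 2 → ℝ) :
    bf (shift q α) (sp u n) (sp u n) = bf q (sp u n) (sp u n) - α / 4 * wd u n ^ 2 := by
  simp only [bf, sp, shift, wd, Matrix.cons_val_zero, Matrix.cons_val_one, Matrix.cons_val]
  ring

theorem bf_shift_self (q : Co) (α : ℝ) (x : Fin 3 → ℝ) :
    bf (shift q α) x x = bf q x x + α * (x 0 * x 1 - x 2 ^ 2) := by
  simp only [bf, shift]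
  ring

theorem bf_comm (q : Co) (x y : Fin 3 → ℝ) : bf q x y = bf q y x := by
  simp only [bf]; ring

/-- the quadratic form is nonnegative -/
theorem bf_nonneg {q : Co} (h1 : ∀ u n : Fin 2 → ℝ, 0 ≤ bf q (sq u) (sq n))
    (h2 : ∀ u n : Fin 2 → ℝ, 0 ≤ bf q (sp u n) (sp u n)) (x : Fin 3 → ℝ) : 0 ≤ bf q x x := by
  -- definite matrices
  have key : ∀ x : Fin 3 → ℝ, 0 < x 0 → x 2 ^ 2 ≤ x 0 * x 1 → 0 ≤ bf q x x := by
    intro x hx hd
    set a := Real.sqrt (x 0) with ha
    have ha2 : a ^ 2 = x 0 := Real.sq_sqrt hx.le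
    have ha0 : 0 < a := Real.sqrt_pos.2 hx
    set b := Real.sqrt (x 1 - x 2 ^ 2 / x 0) with hb
    have hb2 : b ^ 2 = x 1 - x 2 ^ 2 / x 0 := by
      apply Real.sq_sqrt
      rw [sub_nonneg, div_le_iff₀ hx]; linarith
    have e : bf q x x = bf q (sq ![a, x 2 / a]) (sq ![a, x 2 / a])
        + 2 * bf q (sq ![a, x 2 / a]) (sq ![0, b]) + bf q (sq ![0, b]) (sq ![0, b]) := by
      have e0 : x 0 = a ^ 2 := ha2.symm
      have e1 : x 1 = (x 2 / a) ^ 2 + b ^ 2 := by
        rw [hb2, div_pow, ha2]; ring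
      have e2 : x 2 = a * (x 2 / a) := by field_simp
      simp only [bf, sq, Matrix.cons_val_zero, Matrix.cons_val_one, Matrix.cons_val]
      rw [e1, e0]
      generalize hz : x 2 / a = z at *
      rw [e2]
      ring
    rw [e]
    have g1 := h1 ![a, x 2 / a] ![a, x 2 / a]
    have g2 := h1 ![a, x 2 / a] ![0, b]
    have g3 := h1 ![0, b] ![0, b]
    linarith
  by_cases hd : x 0 * x 1 < x 2 ^ 2
  · -- indefinite
    by_cases h0 : x 0 = 0
    · have := h2 ![0, 1] ![2 * x 2, x 1]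
      have e : bf q (sp ![0, 1] ![2 * x 2, x 1]) (sp ![0, 1] ![2 * x 2, x 1]) = bf q x x := by
        simp only [bf, sp, Matrix.cons_val_zero, Matrix.cons_val_one, Matrix.cons_val, h0]
        ring
      rwa [e] at this
    · set r := Real.sqrt (x 2 ^ 2 - x 0 * x 1) with hr
      have hr2 : r ^ 2 = x 2 ^ 2 - x 0 * x 1 := Real.sq_sqrt (by linarith)
      have := h2 ![x 0, x 2 + r] ![1, (x 2 - r) / x 0]
      have e : bf q (sp ![x 0, x 2 + r] ![1, (x 2 - r) / x 0])
          (sp ![x 0, x 2 + r] ![1, (x 2 - r) / x 0]) = bf q x x := by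
        have e1 : (x 2 + r) * ((x 2 - r) / x 0) = x 1 := by
          field_simp
          linear_combination -hr2
        have e2 : (x 0 * ((x 2 - r) / x 0) + (x 2 + r) * 1) / 2 = x 2 := by
          field_simp; ring
        simp only [bf, sp, Matrix.cons_val_zero, Matrix.cons_val_one, Matrix.cons_val, e1, e2]
        ring
      rwa [e] at this
  · have hd' : x 2 ^ 2 ≤ x 0 * x 1 := not_lt.1 hd
    rcases lt_trichotomy (x 0) 0 with h0 | h0 | h0
    · have := key (-x) (by simpa using h0) (by simpa using hd')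
      have e : bf q (-x) (-x) = bf q x x := by
        simp only [bf, Pi.neg_apply]; ring
      rwa [e] at this
    · have h3 : x 2 = 0 := by
        rw [h0, zero_mul] at hd'
        exact pow_eq_zero_iff (two_ne_zero) |>.1 (le_antisymm hd' (sq_nonneg _))
      have := h1 ![0, 1] ![0, 1]
      have e : bf q x x = x 1 ^ 2 * bf q (sq ![0, 1]) (sq ![0, 1]) := by
        simp only [bf, sq, Matrix.cons_val_zero, Matrix.cons_val_one, Matrix.cons_val, h0, h3]
        ring
      rw [e]; positivity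
    · exact key x h0 hd'

/-- the identity behind convexity -/
theorem bf_conv (q : Co) (x y k z : Fin 3 → ℝ) (s t : ℝ) (hst : s + t = 1)
    (hz : ∀ i, z i = s * x i + t * y i - s * t * k i) :
    s * bf q x x + t * bf q y y - bf q z z
      = s * t * bf q (x - y) (x - y) + 2 * (s * t) * bf q z k + (s * t) ^ 2 * bf q k k := by
  have hs : s = 1 - t := by linarith
  subst hs
  simp only [bf, hz, Pi.sub_apply]
  ring

end Pool.Agent.H64.CG
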