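import Pool.Agent.H64.CG.Sig

/-! # Quadratic forms of the Cauchy-Green tensor: the decomposition -/

set_option autoImplicit false

open Set Filter Topology Matrix
open Pool.Agent.W5h27.MO (M2 NlAt)

namespace Pool.Agent.H64.CG

variable {I : Set ℝ} {q : Co} {T : M2 →ₗ[ℝ] M2 →ₗ[ℝ] ℝ} {l : M2 →ₗ[ℝ] ℝ} {f : ℝ → ℝ}

theorem cg_smul (s : ℝ) (F : M2) : cg (s • F) = s ^ 2 • cg F := by
  funext i
  fin_cases i <;> simp [cg] <;> ring

theorem bf_smul (s : ℝ) (x : Fin 3 → ℝ) : bf q (s • x) (s • x) = s ^ 2 * bf q x x := by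
  simp only [bf, Pi.smul_apply, smul_eq_mul]; ring

/-- the quadratic part is nonnegative on singular matrices -/
theorem quad_nonneg (hI : SegI I (En q T l f)) (hpos : Ioi 0 ⊆ I) (H : M2) (hH : H.det = 0) :
    0 ≤ T H H := by
  by_cases h0 : H = 0
  · subst h0; simp
  have hHd : H 0 0 * H 1 1 - H 0 1 * H 1 0 = 0 := by rw [← det_fin_two]; exact hH
  set F : M2 := !![H 0 1 - H 1 0, -(H 0 0 + H 1 1); H 0 0 + H 1 1, H 0 1 - H 1 0] with hF
  have dF : F.det = H 0 0 ^ 2 + H 0 1 ^ 2 + H 1 0 ^ 2 + H 1 1 ^ 2 := by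
    simp only [hF, det_fin_two_of]
    linear_combination 2 * hHd
  have dp : 0 < F.det := by
    rw [dF]
    by_contra hcon
    apply h0
    have a0 := sq_nonneg (H 0 0)
    have a1 := sq_nonneg (H 0 1)
    have a2 := sq_nonneg (H 1 0)
    have a3 := sq_nonneg (H 1 1)
    ext i j
    fin_cases i <;> fin_cases j <;> simp <;> refine pow_eq_zero_iff (two_ne_zero) |>.1 ?_ <;>
      linarith
  have dFp : (F + H).det = F.det := by
    simp only [hF, det_fin_two, Matrix.add_apply, Matrix.of_apply, Matrix.cons_val',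
      Matrix.cons_val_zero, Matrix.cons_val_one, Matrix.cons_val_fin_one]
    linear_combination hHd
  have dFm : (F - H).det = F.det := by
    simp only [hF, det_fin_two, Matrix.sub_apply, Matrix.of_apply, Matrix.cons_val',
      Matrix.cons_val_zero, Matrix.cons_val_one, Matrix.cons_val_fin_one]
    linear_combination hHd
  suffices h : 0 ≤ 2 * T H H by linarith
  refine lim0 (b := bf q (cg (F + H)) (cg (F + H)) + bf q (cg (F - H)) (cg (F - H))
    - 2 * bf q (cg F) (cg F)) (c := 0) fun ε hε _ => ?_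
  obtain ⟨s, hs0, hs⟩ : ∃ s : ℝ, 0 < s ∧ s ^ 2 = ε :=
    ⟨Real.sqrt ε, Real.sqrt_pos.2 hε, Real.sq_sqrt hε.le⟩
  have hdet : ∀ G : M2, (s • G).det = s ^ 2 * G.det := by
    intro G; rw [det_smul]; simp
  have ep : s • F + s • H = s • (F + H) := (smul_add _ _ _).symm
  have em : s • F - s • H = s • (F - H) := (smul_sub _ _ _).symm
  have hm := hI.mid (s • F) (s • H) (by rw [hdet, hH, mul_zero])
    (by rw [em, hdet, dFm]; exact hpos (mem_Ioi.2 (mul_pos (pow_pos hs0 2) dp)))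
    (by rw [ep, hdet, dFp]; exact hpos (mem_Ioi.2 (mul_pos (pow_pos hs0 2) dp)))
  rw [ep, em] at hm
  unfold En at hm
  rw [hdet, hdet, hdet, dFp, dFm] at hm
  simp only [cg_smul, bf_smul, map_smul, LinearMap.smul_apply, smul_eq_mul] at hm
  have hT : T (F + H) (F + H) + T (F - H) (F - H) - 2 * T F F = 2 * T H H := by
    simp only [map_add, map_sub, LinearMap.add_apply, LinearMap.sub_apply]; ring
  have hl : l (F + H) + l (F - H) - 2 * l F = 0 := by
    simp only [map_add, map_sub]; ring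
  have e : (s ^ 2) ^ 2 * bf q (cg (F + H)) (cg (F + H)) + s * (s * T (F + H) (F + H))
      + s * l (F + H) + f (s ^ 2 * F.det) + ((s ^ 2) ^ 2 * bf q (cg (F - H)) (cg (F - H))
      + s * (s * T (F - H) (F - H)) + s * l (F - H) + f (s ^ 2 * F.det))
      - 2 * ((s ^ 2) ^ 2 * bf q (cg F) (cg F) + s * (s * T F F) + s * l F + f (s ^ 2 * F.det))
      = ε * (2 * T H H + (bf q (cg (F + H)) (cg (F + H)) + bf q (cg (F - H)) (cg (F - H))
        - 2 * bf q (cg F) (cg F)) * ε + 0 * ε ^ 2) := by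
    rw [← hs]
    linear_combination s ^ 2 * hT + s * hl
  rw [e] at hm
  exact nonneg_of_mul_nonneg_right hm hε

/-! ### the S-lemma -/

/-- the determinant as a symmetric bilinear form -/
noncomputable def dt (x y : M2) : ℝ := (x 0 0 * y 1 1 + x 1 1 * y 0 0 - x 0 1 * y 1 0 - x 1 0 * y 0 1) / 2

theorem dt_self (x : M2) : dt x x = x.det := by
  rw [det_fin_two]; simp only [dt]; ring

theorem dt_expand (x y : M2) (s : ℝ) : (x + s • y).det = x.det + 2 * s * dt x y + s ^ 2 * y.det := by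
  simp only [det_fin_two, dt, Matrix.add_apply, Matrix.smul_apply, smul_eq_mul]; ring

theorem T_expand (x y : M2) (s : ℝ) : T (x + s • y) (x + s • y)
    = T x x + s * (T x y + T y x) + s ^ 2 * T y y := by
  simp only [map_add, map_smul, LinearMap.add_apply, LinearMap.smul_apply, smul_eq_mul]; ring

theorem two_point (h0 : ∀ x : M2, x.det = 0 → 0 ≤ T x x) (x y : M2) (hx : 0 < x.det)
    (hy : y.det < 0) : 0 ≤ -y.det * T x x + x.det * T y y := by
  obtain ⟨a, ha⟩ : ∃ a, a = x.det := ⟨_, rfl⟩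
  obtain ⟨b, hb⟩ : ∃ b, b = dt x y := ⟨_, rfl⟩
  obtain ⟨d, hd⟩ : ∃ d, d = -y.det := ⟨_, rfl⟩
  obtain ⟨p, hp⟩ : ∃ p, p = T x x := ⟨_, rfl⟩
  obtain ⟨m, hm⟩ : ∃ m, m = T x y + T y x := ⟨_, rfl⟩
  obtain ⟨k, hk⟩ : ∃ k, k = T y y := ⟨_, rfl⟩
  have ha0 : 0 < a := by rw [ha]; exact hx
  have hd0 : 0 < d := by rw [hd]; linarith
  obtain ⟨r, hr⟩ : ∃ r, r = Real.sqrt (b ^ 2 + a * d) := ⟨_, rfl⟩
  have hr2 : r ^ 2 = b ^ 2 + a * d := by
    rw [hr]; exact Real.sq_sqrt (by positivity)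
  have hr0 : 0 ≤ r := by rw [hr]; exact Real.sqrt_nonneg _
  have had : 0 < a * d := mul_pos ha0 hd0
  have hbr : |b| < r := by
    apply lt_of_pow_lt_pow_left₀ 2 hr0
    rw [sq_abs, hr2]; linarith
  have hb1 : 0 < r + b := by linarith [neg_abs_le b]
  have hb2 : 0 < r - b := by linarith [le_abs_self b]
  have key : ∀ s : ℝ, a + 2 * s * b - d * s ^ 2 = 0 → 0 ≤ p + s * m + s ^ 2 * k := by
    intro s hs
    have e1 : (x + s • y).det = a + 2 * s * b - d * s ^ 2 := by
      rw [dt_expand, ha, hb, hd]; ring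
    have e2 : T (x + s • y) (x + s • y) = p + s * m + s ^ 2 * k := by
      rw [T_expand, hp, hm, hk]
    rw [← e2]
    exact h0 _ (by rw [e1]; exact hs)
  have k1 := key ((b + r) / d) (by field_simp; nlinarith)
  have k2 := key ((b - r) / d) (by field_simp; nlinarith)
  have m1 : 0 ≤ (r - b) * (p + ((b + r) / d) * m + ((b + r) / d) ^ 2 * k) :=
    mul_nonneg hb2.le k1
  have m2 : 0 ≤ (r + b) * (p + ((b - r) / d) * m + ((b - r) / d) ^ 2 * k) :=
    mul_nonneg hb1.le k2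
  have e3 : (r - b) * (p + ((b + r) / d) * m + ((b + r) / d) ^ 2 * k) +
      (r + b) * (p + ((b - r) / d) * m + ((b - r) / d) ^ 2 * k) =
      2 * r / d * (d * p + (r ^ 2 - b ^ 2) / d * k) := by
    field_simp; ring
  have e4 : (r ^ 2 - b ^ 2) / d = a := by
    rw [hr2]; field_simp; ring
  rw [e4] at e3
  have hr1 : 0 < r := lt_of_le_of_lt (abs_nonneg b) hbr
  have h5 : 0 ≤ 2 * r / d * (d * p + a * k) := by rw [← e3]; linarith
  have h6 : 0 < 2 * r / d := by positivity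
  have h7 := nonneg_of_mul_nonneg_right h5 h6
  rw [← hd, ← ha, ← hp, ← hk]; exact h7

theorem slem (h0 : ∀ x : M2, x.det = 0 → 0 ≤ T x x) : ∃ c : ℝ, ∀ x : M2, 0 ≤ T x x + c * x.det := by
  have hbd : ∀ x y : M2, 0 < x.det → y.det < 0 → -T x x / x.det ≤ T y y / -y.det := by
    intro x y hx hy
    have h := two_point h0 x y hx hy
    rw [div_le_div_iff₀ hx (by linarith)]
    nlinarith
  have hx₀ : 0 < (1 : M2).det := by simp
  have hy₀ : (!![1, 0; 0, -1] : M2).det < 0 := by simp [det_fin_two]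
  refine ⟨sSup {t | ∃ x : M2, 0 < x.det ∧ t = -T x x / x.det}, fun x => ?_⟩
  have hne : {t | ∃ x : M2, 0 < x.det ∧ t = -T x x / x.det}.Nonempty := ⟨_, 1, hx₀, rfl⟩
  have hba : BddAbove {t | ∃ x : M2, 0 < x.det ∧ t = -T x x / x.det} :=
    ⟨_, by rintro t ⟨x, hx, rfl⟩; exact hbd x _ hx hy₀⟩
  rcases lt_trichotomy x.det 0 with hx | hx | hx
  · have h : sSup {t | ∃ x : M2, 0 < x.det ∧ t = -T x x / x.det} ≤ T x x / -x.det := by
      apply csSup_le hne
      rintro t ⟨z, hz, rfl⟩; exact hbd z x hz hx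
    rw [le_div_iff₀ (by linarith)] at h
    linarith
  · rw [hx]; simpa using h0 x hx
  · have h : -T x x / x.det ≤ sSup {t | ∃ x : M2, 0 < x.det ∧ t = -T x x / x.det} :=
      le_csSup hba ⟨x, hx, rfl⟩
    rw [div_le_iff₀ hx] at h
    linarith

/-! ### the multiple of the square of the determinant -/

/-- the criterion: `quartic x ↦ q(x ⊗ x)` convex, quadratic part nonnegative on singular matrices,
`f + 2 q(v ⊗ v, n ⊗ n) x²` convex on `I` for all `v ∧ n = 1` -/
structure Crit (I : Set ℝ) (q : Co) (T : M2 →ₗ[ℝ] M2 →ₗ[ℝ] ℝ) (f : ℝ → ℝ) : Prop where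
  qu : ∀ u n : Fin 2 → ℝ, 0 ≤ 4 * bf q (sq u) (sq n) + 8 * bf q (sp u n) (sp u n)
  tt : ∀ H : M2, H.det = 0 → 0 ≤ T H H
  ff : ∀ v n : Fin 2 → ℝ, wd v n = 1 → ConvexOn ℝ I (fun x => f x + 2 * bf q (sq v) (sq n) * x ^ 2)

theorem crit_of_seg (hI : SegI I (En q T l f)) (hc : Convex ℝ I) (hpos : Ioi 0 ⊆ I) :
    Crit I q T f := by
  refine ⟨sig hI hpos, quad_nonneg hI hpos, fun v n hvn => ?_⟩
  have := f_conv (f := f) hc (a := -(2 * bf q (sq v) (sq n))) (fun x hx y hy t h0 h1 => by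
    have h := line_fam hI hvn hx hy h0 h1
    linarith)
  simpa [sub_neg_eq_add] using this

theorem exists_alpha (h : Crit I q T f) : ∃ α : ℝ,
    (∀ u n : Fin 2 → ℝ, 0 ≤ bf (shift q α) (sq u) (sq n)) ∧
    (∀ u n : Fin 2 → ℝ, 0 ≤ bf (shift q α) (sp u n) (sp u n)) ∧
    ConvexOn ℝ I (fun x => f x - α * x ^ 2) := by
  set S : Set ℝ := {a | ∃ v n : Fin 2 → ℝ, wd v n = 1 ∧ a = -2 * bf q (sq v) (sq n)} with hS
  have hlow : ∀ v n : Fin 2 → ℝ, (4 * q.D - q.C) / 6 * wd v n ^ 2 ≤ bf q (sq v) (sq n) := by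
    intro v n
    have h1 := h.qu v n
    have h2 := bf_sq_sq q v n
    linarith
  have hne : S.Nonempty := ⟨_, ![1, 0], ![0, 1], by simp [wd], rfl⟩
  have hub : ∀ a ∈ S, a ≤ -(4 * q.D - q.C) / 3 := by
    rintro a ⟨v, n, hvn, rfl⟩
    have := hlow v n
    rw [hvn] at this
    linarith
  have hba : BddAbove S := ⟨_, hub⟩
  have hα : sSup S ≤ -(4 * q.D - q.C) / 3 := csSup_le hne hub
  refine ⟨sSup S, fun u n => ?_, fun u n => ?_, ?_⟩
  · rw [bf_shift]
    by_cases hw : wd u n = 0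
    · have := hlow u n
      rw [hw] at this ⊢
      simpa using this
    · have h1 : wd ((wd u n)⁻¹ • u) n = 1 := by
        simp only [wd, Pi.smul_apply, smul_eq_mul] at hw ⊢
        field_simp
      have h2 : -2 * bf q (sq ((wd u n)⁻¹ • u)) (sq n) ≤ sSup S := le_csSup hba ⟨_, n, h1, rfl⟩
      have h3 : bf q (sq ((wd u n)⁻¹ • u)) (sq n) = (wd u n)⁻¹ ^ 2 * bf q (sq u) (sq n) := by
        simp only [bf, sq, Pi.smul_apply, smul_eq_mul, Matrix.cons_val_zero, Matrix.cons_val_one,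
          Matrix.cons_val]
        ring
      rw [h3] at h2
      have h4 : 0 < wd u n ^ 2 := by positivity
      have h5 := mul_le_mul_of_nonneg_right h2 h4.le
      have h6 : -2 * ((wd u n)⁻¹ ^ 2 * bf q (sq u) (sq n)) * wd u n ^ 2
          = -2 * bf q (sq u) (sq n) := by field_simp
      rw [h6] at h5
      linarith
  · rw [bf_shift_sp]
    have h1 := h.qu u n
    have h2 := bf_sq_sq q u n
    have h3 : 0 ≤ (-(4 * q.D - q.C) / 3 - sSup S) * wd u n ^ 2 :=
      mul_nonneg (by linarith) (sq_nonneg _)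
    nlinarith
  · refine ⟨(h.ff ![1, 0] ![0, 1] (by simp [wd])).1, fun x hx y hy s t hs ht hst => ?_⟩
    have hs' : s = 1 - t := by linarith
    subst hs'
    simp only [smul_eq_mul]
    have hP : 0 ≤ t * (1 - t) * (x - y) ^ 2 := mul_nonneg (mul_nonneg ht hs) (sq_nonneg _)
    have key : ∀ a ∈ S, a * (t * (1 - t) * (x - y) ^ 2)
        ≤ (1 - t) * f x + t * f y - f ((1 - t) * x + t * y) := by
      rintro a ⟨v, n, hvn, rfl⟩
      have := (h.ff v n hvn).2 hx hy hs ht (by ring)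
      simp only [smul_eq_mul] at this
      nlinarith
    have hfin : sSup S * (t * (1 - t) * (x - y) ^ 2)
        ≤ (1 - t) * f x + t * f y - f ((1 - t) * x + t * y) := by
      rcases hP.eq_or_lt with h0 | h0
      · obtain ⟨a, ha⟩ := hne
        have := key a ha
        rw [← h0] at this ⊢
        simpa using this
      · rw [← le_div_iff₀ h0]
        exact csSup_le hne fun a ha => (le_div_iff₀ h0).2 (key a ha)
    nlinarith

/-! ### convexity -/

theorem cg_comb (F G : M2) (s t : ℝ) (hst : s + t = 1) (i : Fin 3) :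
    cg (s • F + t • G) i = s * cg F i + t * cg G i - s * t * cg (F - G) i := by
  have hs : s = 1 - t := by linarith
  subst hs
  fin_cases i <;> simp [cg] <;> ring

theorem bf_cg_nonneg (h1 : ∀ u n : Fin 2 → ℝ, 0 ≤ bf q (sq u) (sq n)) (F G : M2) :
    0 ≤ bf q (cg F) (cg G) := by
  have e : bf q (cg F) (cg G) = bf q (sq (F 0)) (sq (G 0)) + bf q (sq (F 0)) (sq (G 1))
      + bf q (sq (F 1)) (sq (G 0)) + bf q (sq (F 1)) (sq (G 1)) := by
    rw [cg_rows, cg_rows]
    simp only [bf, Pi.add_apply]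
    ring
  rw [e]
  have a1 := h1 (F 0) (G 0)
  have a2 := h1 (F 0) (G 1)
  have a3 := h1 (F 1) (G 0)
  have a4 := h1 (F 1) (G 1)
  linarith

theorem quartic_convex (h1 : ∀ u n : Fin 2 → ℝ, 0 ≤ bf q (sq u) (sq n))
    (h2 : ∀ u n : Fin 2 → ℝ, 0 ≤ bf q (sp u n) (sp u n)) :
    ConvexOn ℝ univ (fun F : M2 => bf q (cg F) (cg F)) := by
  refine ⟨convex_univ, fun F _ G _ s t hs ht hst => ?_⟩
  have e := bf_conv q (cg F) (cg G) (cg (F - G)) (cg (s • F + t • G)) s t hst
    (cg_comb F G s t hst)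
  have g1 := bf_nonneg h1 h2 (cg F - cg G)
  have g2 := bf_nonneg h1 h2 (cg (F - G))
  have g3 := bf_cg_nonneg h1 (s • F + t • G) (F - G)
  have hst0 : 0 ≤ s * t := mul_nonneg hs ht
  simp only [smul_eq_mul]
  have : 0 ≤ s * t * bf q (cg F - cg G) (cg F - cg G)
      + 2 * (s * t) * bf q (cg (s • F + t • G)) (cg (F - G))
      + (s * t) ^ 2 * bf q (cg (F - G)) (cg (F - G)) := by positivity
  linarith

theorem quad_convex {c : ℝ} (h : ∀ x : M2, 0 ≤ T x x + c * x.det) :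
    ConvexOn ℝ univ (fun F : M2 => T F F + c * F.det) := by
  refine ⟨convex_univ, fun F _ G _ s t hs ht hst => ?_⟩
  have hs' : s = 1 - t := by linarith
  subst hs'
  have e : (1 - t) * (T F F + c * F.det) + t * (T G G + c * G.det)
      - (T ((1 - t) • F + t • G) ((1 - t) • F + t • G) + c * ((1 - t) • F + t • G).det)
      = (1 - t) * t * (T (F - G) (F - G) + c * (F - G).det) := by
    simp only [map_add, map_sub, map_smul, LinearMap.add_apply, LinearMap.sub_apply,
      LinearMap.smul_apply, smul_eq_mul, det_fin_two, Matrix.add_apply, Matrix.sub_apply,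
      Matrix.smul_apply]
    ring
  have := mul_nonneg (mul_nonneg hs ht) (h (F - G))
  simp only [smul_eq_mul]
  linarith

theorem cg_det (F : M2) : cg F 0 * cg F 1 - cg F 2 ^ 2 = F.det ^ 2 := by
  simp only [cg, det_fin_two, Matrix.cons_val_zero, Matrix.cons_val_one, Matrix.cons_val]
  ring

/-- the decomposition -/
theorem decomp (h : Crit I q T f) : ∃ (g : M2 → ℝ) (c α : ℝ), ConvexOn ℝ univ g ∧
    ConvexOn ℝ I (fun x => f x - α * x ^ 2) ∧
    ∀ F : M2, En q T l f F = g F + c * F.det + (f F.det - α * F.det ^ 2) := by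
  obtain ⟨α, h1, h2, h3⟩ := exists_alpha h
  obtain ⟨c, hc⟩ := slem h.tt
  refine ⟨fun F => bf (shift q α) (cg F) (cg F) + (T F F + c * F.det) + l F, -c, α, ?_, h3,
    fun F => ?_⟩
  · refine ((quartic_convex h1 h2).add (quad_convex hc)).add ?_
    exact ⟨convex_univ, fun F _ G _ s t _ _ _ => by simp⟩
  · simp only [En, bf_shift_self, cg_det]
    ring

end Pool.Agent.H64.CG
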