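import Pool.Agent.H64.CG.Dec

/-! # Quadratic forms of the Cauchy-Green tensor: supports, bilinear forms, transposition -/

set_option autoImplicit false

open Set Filter Topology Matrix MeasureTheory
open Pool.Agent.W5h27.MO (M2 NlAt Seg SegP)

namespace Pool.Agent.H64.CG

variable {I : Set ℝ} {q : Co} {T : M2 →ₗ[ℝ] M2 →ₗ[ℝ] ℝ} {l : M2 →ₗ[ℝ] ℝ} {f : ℝ → ℝ}

/-- supporting lines -/
theorem supp_line (hI : IsOpen I) {h : ℝ → ℝ} (hh : ConvexOn ℝ I h) {x₀ : ℝ} (hx₀ : x₀ ∈ I) :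
    ∃ m : ℝ, ∀ x ∈ I, h x₀ + m * (x - x₀) ≤ h x := by
  obtain ⟨ε, hε, hb⟩ := Metric.isOpen_iff.1 hI x₀ hx₀
  have hz : x₀ + ε / 2 ∈ I := hb (by rw [Metric.mem_ball, Real.dist_eq]; rw [abs_lt]; constructor <;> linarith)
  have hy : x₀ - ε / 2 ∈ I := hb (by rw [Metric.mem_ball, Real.dist_eq]; rw [abs_lt]; constructor <;> linarith)
  set S : Set ℝ := {m | ∃ y ∈ I, y < x₀ ∧ m = (h x₀ - h y) / (x₀ - y)} with hS
  have hub : ∀ z ∈ I, x₀ < z → ∀ m ∈ S, m ≤ (h z - h x₀) / (z - x₀) := by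
    rintro z hz1 hz2 m ⟨y, hy1, hy2, rfl⟩
    exact hh.slope_mono_adjacent hy1 hz1 hy2 hz2
  have hne : S.Nonempty := ⟨_, x₀ - ε / 2, hy, by linarith, rfl⟩
  have hba : BddAbove S := ⟨_, hub _ hz (by linarith)⟩
  refine ⟨sSup S, fun x hx => ?_⟩
  rcases lt_trichotomy x x₀ with h1 | h1 | h1
  · have h2 : (h x₀ - h x) / (x₀ - x) ≤ sSup S := le_csSup hba ⟨x, hx, h1, rfl⟩
    rw [div_le_iff₀ (by linarith)] at h2
    linarith
  · subst h1; simp
  · have h2 : sSup S ≤ (h x - h x₀) / (x - x₀) := csSup_le hne (hub x hx h1)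
    rw [le_div_iff₀ (by linarith)] at h2
    linarith

/-- the linear part of `cg` at `F₀` -/
def lc (F₀ H : M2) : Fin 3 → ℝ :=
  ![2 * (F₀ 0 0 * H 0 0 + F₀ 1 0 * H 1 0), 2 * (F₀ 0 1 * H 0 1 + F₀ 1 1 * H 1 1),
    F₀ 0 0 * H 0 1 + H 0 0 * F₀ 0 1 + F₀ 1 0 * H 1 1 + H 1 0 * F₀ 1 1]

theorem cg_lc (F₀ H : M2) : cg (F₀ + H) = cg F₀ + lc F₀ H + cg H := by
  funext i
  fin_cases i <;> simp [cg, lc] <;> ring

/-- derivative of the quartic part -/
noncomputable def l1 (q : Co) (F₀ : M2) : M2 →ₗ[ℝ] ℝ where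
  toFun H := 2 * bf q (cg F₀) (lc F₀ H)
  map_add' H K := by
    simp only [bf, lc, Matrix.add_apply, Matrix.cons_val_zero, Matrix.cons_val_one, Matrix.cons_val]
    ring
  map_smul' t H := by
    simp only [bf, lc, Matrix.smul_apply, smul_eq_mul, Matrix.cons_val_zero, Matrix.cons_val_one,
      Matrix.cons_val, RingHom.id_apply]
    ring

/-- derivative of the quadratic part -/
noncomputable def l2 (T : M2 →ₗ[ℝ] M2 →ₗ[ℝ] ℝ) (c : ℝ) (F₀ : M2) : M2 →ₗ[ℝ] ℝ where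
  toFun H := T F₀ H + T H F₀ + 2 * c * dt F₀ H
  map_add' H K := by
    simp only [map_add, LinearMap.add_apply, dt, Matrix.add_apply]
    ring
  map_smul' t H := by
    simp only [map_smul, LinearMap.smul_apply, dt, Matrix.smul_apply, smul_eq_mul,
      RingHom.id_apply]
    ring

theorem nlAt (hI : IsOpen I) (h : Crit I q T f) {F₀ : M2} (hF₀ : F₀.det ∈ I) :
    NlAt (En q T l f) I F₀ := by
  obtain ⟨α, h1, h2, h3⟩ := exists_alpha h
  obtain ⟨c, hc⟩ := slem h.tt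
  obtain ⟨m, hm⟩ := supp_line hI h3 hF₀
  obtain ⟨l', hl'⟩ : ∃ l' : M2 →ₗ[ℝ] ℝ, ∀ H, l' H = l1 (shift q α) F₀ H + l2 T c F₀ H + l H :=
    ⟨l1 (shift q α) F₀ + l2 T c F₀ + l, fun H => by simp⟩
  have hE : ∀ F : M2, En q T l f F = bf (shift q α) (cg F) (cg F) + (T F F + c * F.det) + l F
      - c * F.det + (f F.det - α * F.det ^ 2) := by
    intro F
    simp only [En, bf_shift_self, cg_det]
    ring
  refine ⟨bf (shift q α) (cg F₀) (cg F₀) + (T F₀ F₀ + c * F₀.det) + l F₀ - l' F₀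
    + (f F₀.det - α * F₀.det ^ 2) - m * F₀.det, m - c, l', ?_, fun F hF => ?_⟩
  · rw [hE]; ring
  · obtain ⟨H, rfl⟩ : ∃ H, F = F₀ + H := ⟨F - F₀, by abel⟩
    rw [hE]
    have k1 := hm _ hF
    have k2 : bf (shift q α) (cg F₀) (cg F₀) + l1 (shift q α) F₀ H
        ≤ bf (shift q α) (cg (F₀ + H)) (cg (F₀ + H)) := by
      have g1 := bf_nonneg h1 h2 (lc F₀ H + cg H)
      have g2 := bf_cg_nonneg h1 F₀ H
      have e : bf (shift q α) (cg (F₀ + H)) (cg (F₀ + H))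
          = bf (shift q α) (cg F₀) (cg F₀) + 2 * bf (shift q α) (cg F₀) (lc F₀ H)
            + 2 * bf (shift q α) (cg F₀) (cg H)
            + bf (shift q α) (lc F₀ H + cg H) (lc F₀ H + cg H) := by
        rw [cg_lc]
        simp only [bf, Pi.add_apply]
        ring
      have e1 : l1 (shift q α) F₀ H = 2 * bf (shift q α) (cg F₀) (lc F₀ H) := rfl
      rw [e, e1]
      linarith
    have k3 : T F₀ F₀ + c * F₀.det + l2 T c F₀ H ≤ T (F₀ + H) (F₀ + H) + c * (F₀ + H).det := by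
      have g1 := hc H
      have e1 : l2 T c F₀ H = T F₀ H + T H F₀ + 2 * c * dt F₀ H := rfl
      have e2 := T_expand (T := T) F₀ H 1
      have e3 := dt_expand F₀ H 1
      rw [one_smul] at e2 e3
      rw [e1, e2, e3]
      linarith
    have k4 := hl' H
    rw [map_add l']
    rw [map_add l]
    linarith

/-! ### rank-one convexity of polyconvex functions -/

/-- polyconvexity on the matrices with determinant in `I` -/
def PcI (I : Set ℝ) (W : M2 → ℝ) : Prop :=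
  ∃ P : M2 × ℝ → ℝ, ConvexOn ℝ {p : M2 × ℝ | p.2 ∈ I} P ∧ ∀ F : M2, F.det ∈ I → W F = P (F, F.det)

theorem det_seg (F H : M2) (hH : H.det = 0) (t : ℝ) :
    (F + t • H).det = (1 - t) * F.det + t * (F + H).det := by
  have h1 := dt_expand F H t
  have h2 := dt_expand F H 1
  rw [one_smul, hH] at h2
  rw [hH] at h1
  rw [h1, h2]; ring

theorem SegI.of_pc {W : M2 → ℝ} (h : PcI I W) : SegI I W := by
  obtain ⟨P, h1, h2⟩ := h
  intro F H hH hF hFH t ht0 ht1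
  have a1 : ((F, F.det) : M2 × ℝ) ∈ {p : M2 × ℝ | p.2 ∈ I} := hF
  have a2 : ((F + H, (F + H).det) : M2 × ℝ) ∈ {p : M2 × ℝ | p.2 ∈ I} := hFH
  have q1 : 0 ≤ 1 - t := by linarith
  have q2 : 1 - t + t = 1 := by ring
  have a3 := h1.1 a1 a2 q1 ht0 q2
  have a4 := h1.2 a1 a2 q1 ht0 q2
  have e : ((1 - t) • ((F, F.det) : M2 × ℝ) + t • (F + H, (F + H).det))
      = (F + t • H, (F + t • H).det) := by
    rw [det_seg F H hH t]
    ext1
    · simp only [Prod.fst_add, Prod.smul_fst]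
      rw [smul_add, sub_smul, one_smul]; abel
    · simp only [Prod.snd_add, Prod.smul_snd, smul_eq_mul]
  rw [e] at a3 a4
  rw [h2 F hF, h2 (F + H) hFH, h2 (F + t • H) a3]
  simpa using a4

/-- decomposition -/
def DecI (I : Set ℝ) (f : ℝ → ℝ) (W : M2 → ℝ) : Prop :=
  ∃ (g : M2 → ℝ) (c α : ℝ), ConvexOn ℝ univ g ∧ ConvexOn ℝ I (fun x => f x - α * x ^ 2) ∧
    ∀ F : M2, F.det ∈ I → W F = g F + c * F.det + (f F.det - α * F.det ^ 2)

theorem PcI.of_dec (hc : Convex ℝ I) {W : M2 → ℝ} (h : DecI I f W) : PcI I W := by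
  obtain ⟨g, c, α, h1, h2, h3⟩ := h
  refine ⟨fun p => g p.1 + c * p.2 + (f p.2 - α * p.2 ^ 2), ?_, h3⟩
  have hset : Convex ℝ {p : M2 × ℝ | p.2 ∈ I} := fun p hp p' hp' s t hs ht hst =>
    hc hp hp' hs ht hst
  refine ⟨hset, fun p hp p' hp' s t hs ht hst => ?_⟩
  have k1 := h1.2 (mem_univ p.1) (mem_univ p'.1) hs ht hst
  have k2 := h2.2 hp hp' hs ht hst
  simp only [smul_eq_mul, Prod.fst_add, Prod.smul_fst, Prod.snd_add, Prod.smul_snd] at *
  linarith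

theorem SegI.congr {W W' : M2 → ℝ} (hc : Convex ℝ I) (h : ∀ F : M2, F.det ∈ I → W F = W' F)
    (hW : SegI I W) : SegI I W' := by
  intro F H hH hF hFH t ht0 ht1
  have h1 : (F + t • H).det ∈ I := by
    rw [det_seg F H hH t]
    exact hc hF hFH (by linarith) ht0 (by ring)
  rw [← h F hF, ← h _ hFH, ← h _ h1]
  exact hW F H hH hF hFH t ht0 ht1

/-! ### bilinear forms -/

noncomputable def e0 : M2 := !![1, 0; 0, 0]
noncomputable def e1 : M2 := !![0, 0; 0, 1]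
noncomputable def e2 : M2 := !![0, 1; 1, 0]

/-- the coefficients of a bilinear form -/
noncomputable def coB (B : M2 →ₗ[ℝ] M2 →ₗ[ℝ] ℝ) : Co :=
  ⟨B e0 e0, B e1 e1, B e2 e2, (B e0 e1 + B e1 e0) / 2, (B e0 e2 + B e2 e0) / 2,
    (B e1 e2 + B e2 e1) / 2⟩

/-- the symmetric matrix with given entries -/
noncomputable def ms (x : Fin 3 → ℝ) : M2 := x 0 • e0 + x 1 • e1 + x 2 • e2

theorem coB_apply (B : M2 →ₗ[ℝ] M2 →ₗ[ℝ] ℝ) (x y : Fin 3 → ℝ) :
    2 * bf (coB B) x y = B (ms x) (ms y) + B (ms y) (ms x) := by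
  simp only [ms, map_add, map_smul, LinearMap.add_apply, LinearMap.smul_apply, smul_eq_mul, bf, coB]
  ring

theorem ms_cg (F : M2) : ms (cg F) = Fᵀ * F := by
  ext i j
  fin_cases i <;> fin_cases j <;>
    simp [ms, cg, e0, e1, e2, Matrix.mul_apply, Fin.sum_univ_two] <;> ring

theorem ms_sq (u : Fin 2 → ℝ) : ms (sq u) = vecMulVec u u := by
  ext i j
  fin_cases i <;> fin_cases j <;> simp [ms, sq, e0, e1, e2, vecMulVec_apply] <;> ring

theorem ms_sp (u n : Fin 2 → ℝ) : (2:ℝ) • ms (sp u n) = vecMulVec u n + vecMulVec n u := by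
  ext i j
  fin_cases i <;> fin_cases j <;> simp [ms, sp, e0, e1, e2, vecMulVec_apply] <;> ring

/-- the criterion in terms of `B` and `Q` -/
structure CritB (I : Set ℝ) (B : M2 →ₗ[ℝ] M2 →ₗ[ℝ] ℝ) (Q : QuadraticForm ℝ M2) (f : ℝ → ℝ) :
    Prop where
  qu : ∀ u n : Fin 2 → ℝ, 0 ≤ B (vecMulVec u u) (vecMulVec n n) + B (vecMulVec n n) (vecMulVec u u)
    + B (vecMulVec u n + vecMulVec n u) (vecMulVec u n + vecMulVec n u)
  tt : ∀ H : M2, H.det = 0 → 0 ≤ Q H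
  ff : ∀ v n : Fin 2 → ℝ, v 0 * n 1 - v 1 * n 0 = 1 → ConvexOn ℝ I (fun x => f x
    + (B (vecMulVec v v) (vecMulVec n n) + B (vecMulVec n n) (vecMulVec v v)) * x ^ 2)

theorem critB_iff (B : M2 →ₗ[ℝ] M2 →ₗ[ℝ] ℝ) (Q : QuadraticForm ℝ M2) :
    CritB I B Q f ↔ Crit I (coB B) (QuadraticMap.associated Q) f := by
  have e1 : ∀ u n : Fin 2 → ℝ, 2 * bf (coB B) (sq u) (sq n)
      = B (vecMulVec u u) (vecMulVec n n) + B (vecMulVec n n) (vecMulVec u u) := by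
    intro u n; rw [coB_apply, ms_sq, ms_sq]
  have e2 : ∀ u n : Fin 2 → ℝ, 4 * bf (coB B) (sp u n) (sp u n)
      = B (vecMulVec u n + vecMulVec n u) (vecMulVec u n + vecMulVec n u) := by
    intro u n
    rw [← ms_sp]
    simp only [map_smul, LinearMap.smul_apply, smul_eq_mul]
    have := coB_apply B (sp u n) (sp u n)
    linarith
  have e3 : ∀ H : M2, QuadraticMap.associated Q H H = Q H := fun H =>
    QuadraticMap.associated_eq_self_apply ℝ Q H
  constructor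
  · intro h
    refine ⟨fun u n => ?_, fun H hH => ?_, fun v n hvn => ?_⟩
    · have := h.qu u n
      rw [← e1, ← e2] at this
      linarith
    · rw [e3]; exact h.tt H hH
    · have := h.ff v n hvn
      rw [← e1] at this
      exact this
  · intro h
    refine ⟨fun u n => ?_, fun H hH => ?_, fun v n hvn => ?_⟩
    · have := h.qu u n
      rw [← e1, ← e2]
      linarith
    · rw [← e3]; exact h.tt H hH
    · have := h.ff v n hvn
      rw [e1] at this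
      exact this

theorem en_eq (B : M2 →ₗ[ℝ] M2 →ₗ[ℝ] ℝ) (Q : QuadraticForm ℝ M2) (l : M2 →ₗ[ℝ] ℝ) (f : ℝ → ℝ)
    (F : M2) : B (Fᵀ * F) (Fᵀ * F) + Q F + l F + f F.det
      = En (coB B) (QuadraticMap.associated Q) l f F := by
  have e3 : QuadraticMap.associated Q F F = Q F := QuadraticMap.associated_eq_self_apply ℝ Q F
  have e4 := coB_apply B (cg F) (cg F)
  rw [ms_cg] at e4
  unfold En
  rw [e3]
  linarith

/-- the main equivalences -/
theorem main_left (hIo : IsOpen I) (hc : Convex ℝ I) (hpos : Ioi 0 ⊆ I)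
    (B : M2 →ₗ[ℝ] M2 →ₗ[ℝ] ℝ) (Q : QuadraticForm ℝ M2) (l : M2 →ₗ[ℝ] ℝ) (f : ℝ → ℝ) (W : M2 → ℝ)
    (hW : ∀ F : M2, F.det ∈ I → W F = B (Fᵀ * F) (Fᵀ * F) + Q F + l F + f F.det) :
    (SegI I W → CritB I B Q f) ∧ (CritB I B Q f → DecI I f W) ∧ (DecI I f W → PcI I W) ∧
    (PcI I W → SegI I W) ∧ (CritB I B Q f → ∀ F₀ : M2, F₀.det ∈ I → NlAt W I F₀) := by
  have hE : ∀ F : M2, F.det ∈ I → W F = En (coB B) (QuadraticMap.associated Q) l f F :=
    fun F hF => by rw [hW F hF, en_eq]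
  refine ⟨fun h => ?_, fun h => ?_, PcI.of_dec hc, SegI.of_pc, fun h F₀ hF₀ => ?_⟩
  · rw [critB_iff]
    exact crit_of_seg (SegI.congr hc hE h) hc hpos
  · rw [critB_iff] at h
    obtain ⟨g, c, α, h1, h2, h3⟩ := decomp (l := l) h
    exact ⟨g, c, α, h1, h2, fun F hF => by rw [hE F hF, h3]⟩
  · rw [critB_iff] at h
    obtain ⟨A, γ, l', h1, h2⟩ := nlAt (l := l) hIo h hF₀
    exact ⟨A, γ, l', by rw [hE F₀ hF₀, h1], fun F hF => by rw [hE F hF]; exact h2 F hF⟩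

/-! ### transposition -/

noncomputable def tr : M2 →ₗ[ℝ] M2 := (Matrix.transposeLinearEquiv (Fin 2) (Fin 2) ℝ ℝ).toLinearMap

theorem tr_apply (F : M2) : tr F = Fᵀ := rfl

theorem SegI.tr {W : M2 → ℝ} (hW : SegI I W) : SegI I (fun F => W Fᵀ) := by
  intro F H hH hF hFH t h0 h1
  have := hW Fᵀ Hᵀ (by rwa [det_transpose]) (by rwa [det_transpose])
    (by rwa [← transpose_add, det_transpose]) t h0 h1
  simpa using this

theorem DecI.tr {W : M2 → ℝ} (h : DecI I f (fun F => W Fᵀ)) : DecI I f W := by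
  obtain ⟨g, c, α, h1, h2, h3⟩ := h
  refine ⟨fun F => g Fᵀ, c, α, ?_, h2, fun F hF => ?_⟩
  · exact h1.comp_linearMap CG.tr
  · have := h3 Fᵀ (by rwa [det_transpose])
    simp only [transpose_transpose, det_transpose] at this
    exact this

theorem PcI.tr {W : M2 → ℝ} (h : PcI I W) : PcI I (fun F => W Fᵀ) := by
  obtain ⟨P, h1, h2⟩ := h
  refine ⟨fun p => P (p.1ᵀ, p.2), ⟨?_, ?_⟩, fun F hF => ?_⟩
  · intro p hp p' hp' s t hs ht hst
    exact h1.1 (x := (p.1ᵀ, p.2)) hp (y := (p'.1ᵀ, p'.2)) hp' hs ht hst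
  · intro p hp p' hp' s t hs ht hst
    have := h1.2 (x := (p.1ᵀ, p.2)) hp (y := (p'.1ᵀ, p'.2)) hp' hs ht hst
    simpa using this
  · have := h2 Fᵀ (by rwa [det_transpose])
    rw [det_transpose] at this
    exact this

theorem main_right (hIo : IsOpen I) (hc : Convex ℝ I) (hpos : Ioi 0 ⊆ I)
    (B : M2 →ₗ[ℝ] M2 →ₗ[ℝ] ℝ) (Q : QuadraticForm ℝ M2) (l : M2 →ₗ[ℝ] ℝ) (f : ℝ → ℝ) (W : M2 → ℝ)
    (hW : ∀ F : M2, F.det ∈ I → W F = B (F * Fᵀ) (F * Fᵀ) + Q F + l F + f F.det) :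
    (SegI I W → CritB I B Q f) ∧ (CritB I B Q f → DecI I f W) ∧ (DecI I f W → PcI I W) ∧
    (PcI I W → SegI I W) ∧ (CritB I B Q f → ∀ F₀ : M2, F₀.det ∈ I → NlAt W I F₀) := by
  have hW' : ∀ F : M2, F.det ∈ I → (fun F : M2 => W Fᵀ) F
      = B (Fᵀ * F) (Fᵀ * F) + (Q.comp tr) F + (l ∘ₗ tr) F + f F.det := by
    intro F hF
    have := hW Fᵀ (by rwa [det_transpose])
    rw [transpose_transpose, det_transpose] at this
    exact this
  have hcr : CritB I B (Q.comp tr) f ↔ CritB I B Q f := by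
    constructor
    · intro h
      refine ⟨h.qu, fun H hH => ?_, h.ff⟩
      have := h.tt Hᵀ (by rwa [det_transpose])
      rw [QuadraticMap.comp_apply, tr_apply, transpose_transpose] at this
      exact this
    · intro h
      refine ⟨h.qu, fun H hH => ?_, h.ff⟩
      rw [QuadraticMap.comp_apply, tr_apply]
      exact h.tt Hᵀ (by rwa [det_transpose])
  obtain ⟨h1, h2, h3, h4, h5⟩ := main_left hIo hc hpos B (Q.comp tr) (l ∘ₗ tr) f _ hW'
  rw [hcr] at h1 h2 h5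
  refine ⟨fun h => h1 h.tr, fun h => (h2 h).tr, PcI.of_dec hc, SegI.of_pc, fun h F₀ hF₀ => ?_⟩
  exact NlAt.of_transpose (h5 h F₀ᵀ (by rwa [det_transpose]))

end Pool.Agent.H64.CG
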