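import Pool.Agent.H64.CG.Fin

/-! # The Morrey inequality from null Lagrangian supports, on an open set of determinants -/

set_option autoImplicit false

open Set Filter Topology Matrix MeasureTheory
open scoped ComplexConjugate NNReal ENNReal
open Pool.Agent.Helper188.Morrey (grad grad_apply measurable_grad grad_bound grad_off integral_grad
  meas_comp integrable_comp integral_lin)
open Pool.Agent.W5h27.MO (M2 NlAt mq integral_null)

namespace Pool.Agent.H64.CG

variable {ϑ : (Fin 2 → ℝ) → (Fin 2 → ℝ)} {Ω : Set (Fin 2 → ℝ)} {I : Set ℝ}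

/-- the function extended by zero, in coordinates -/
noncomputable def ex (I : Set ℝ) (W : M2 → ℝ) (q : ℝ × ℝ × ℝ × ℝ) : ℝ :=
  open Classical in
  if (mq q).det ∈ I then W (mq q) else 0

theorem meas_ex (hI : IsOpen I) {W : M2 → ℝ} (h : ∀ F₀ : M2, F₀.det ∈ I → NlAt W I F₀) :
    Measurable (ex I W) := by
  have hmc : Continuous mq := by
    refine continuous_matrix fun i j => ?_
    fin_cases i <;> fin_cases j <;> simp [mq] <;> fun_prop
  have hU : IsOpen {q | (mq q).det ∈ I} := hI.preimage (by fun_prop)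
  refine measurable_of_Ioi fun c => ?_
  have hV : IsOpen {q | (mq q).det ∈ I ∧ c < W (mq q)} := by
    rw [isOpen_iff_mem_nhds]
    rintro q ⟨hq1, hq2⟩
    obtain ⟨A, γ, l, h1, h2⟩ := h (mq q) hq1
    have hlc : Continuous l := LinearMap.continuous_of_finiteDimensional l
    have ho : IsOpen {q' | c < A + l (mq q') + γ * (mq q').det} :=
      isOpen_lt continuous_const (by fun_prop)
    have hq3 : q ∈ {q' | c < A + l (mq q') + γ * (mq q').det} := by
      show c < A + l (mq q) + γ * (mq q).det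
      rw [← h1]; exact hq2
    filter_upwards [hU.mem_nhds hq1, ho.mem_nhds hq3] with q' g1 g2
    exact ⟨g1, lt_of_lt_of_le g2 (h2 _ g1)⟩
  by_cases hc : c < 0
  · have e : ex I W ⁻¹' Ioi c = {q | (mq q).det ∈ I ∧ c < W (mq q)} ∪ {q | (mq q).det ∈ I}ᶜ := by
      ext q
      simp only [mem_preimage, mem_Ioi, ex, mem_union, mem_compl_iff, mem_ofPred_eq]
      by_cases hq : (mq q).det ∈ I
      · rw [if_pos hq]; tauto
      · rw [if_neg hq]; tauto
    rw [e]
    exact hV.measurableSet.union hU.measurableSet.compl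
  · have e : ex I W ⁻¹' Ioi c = {q | (mq q).det ∈ I ∧ c < W (mq q)} := by
      ext q
      simp only [mem_preimage, mem_Ioi, ex, mem_ofPred_eq]
      by_cases hq : (mq q).det ∈ I
      · rw [if_pos hq]; tauto
      · rw [if_neg hq]; tauto
    rw [e]
    exact hV.measurableSet

/-- Morrey's inequality on the matrices with determinant in `I` -/
theorem morrey_on (hI : IsOpen I) {W : M2 → ℝ} (h : ∀ F₀ : M2, F₀.det ∈ I → NlAt W I F₀) {F₀ : M2}
    (hF₀ : F₀.det ∈ I) (hΩ : IsOpen Ω) (hb : Bornology.IsBounded Ω)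
    (hϑ : ∃ K, LipschitzWith K ϑ) (h0 : ∀ x, x ∉ Ω → ϑ x = 0)
    (hpos : ∀ᵐ x ∂(volume.restrict Ω), (F₀ + grad ϑ x).det ∈ I)
    (hfin : ∫⁻ x in Ω, ENNReal.ofReal (W (F₀ + grad ϑ x)) ≠ ⊤) :
    IntegrableOn (fun x => W (F₀ + grad ϑ x)) Ω ∧
      W F₀ * (volume Ω).toReal ≤ ∫ x in Ω, W (F₀ + grad ϑ x) := by
  obtain ⟨K, hK⟩ := hϑ
  obtain ⟨A, γ, l, h1, h2⟩ := h F₀ hF₀
  obtain ⟨i1, i2⟩ := integral_null hK hΩ hb h0 F₀ A γ l
  have hle : ∀ᵐ x ∂(volume.restrict Ω),
      A + l (F₀ + grad ϑ x) + γ * (F₀ + grad ϑ x).det ≤ W (F₀ + grad ϑ x) := by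
    filter_upwards [hpos] with x hx
    exact h2 _ hx
  have hmeas : AEStronglyMeasurable (fun x => W (F₀ + grad ϑ x)) (volume.restrict Ω) := by
    have g1 : Measurable (fun x => ((F₀ 0 0 + grad ϑ x 0 0, F₀ 0 1 + grad ϑ x 0 1,
        F₀ 1 0 + grad ϑ x 1 0, F₀ 1 1 + grad ϑ x 1 1) : ℝ × ℝ × ℝ × ℝ)) :=
      ((measurable_grad 0 0).const_add _).prodMk (((measurable_grad 0 1).const_add _).prodMk
        (((measurable_grad 1 0).const_add _).prodMk ((measurable_grad 1 1).const_add _)))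
    have g2 := (meas_ex hI h).comp g1
    refine ⟨_, g2.stronglyMeasurable, ?_⟩
    filter_upwards [hpos] with x hx
    have e : mq (F₀ 0 0 + grad ϑ x 0 0, F₀ 0 1 + grad ϑ x 0 1, F₀ 1 0 + grad ϑ x 1 0,
        F₀ 1 1 + grad ϑ x 1 1) = F₀ + grad ϑ x := by
      ext i j; fin_cases i <;> fin_cases j <;> rfl
    simp only [Function.comp, ex]
    rw [e, if_pos hx]
  have hint : Integrable (fun x => W (F₀ + grad ϑ x)) (volume.restrict Ω) := by
    set n : (Fin 2 → ℝ) → ℝ := fun x => A + l (F₀ + grad ϑ x) + γ * (F₀ + grad ϑ x).det with hn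
    have p1 : Integrable (fun x => max (W (F₀ + grad ϑ x)) 0) (volume.restrict Ω) := by
      refine ⟨hmeas.sup aestronglyMeasurable_const, ?_⟩
      have hnn0 : 0 ≤ᵐ[volume.restrict Ω] fun x => max (W (F₀ + grad ϑ x)) 0 :=
        Eventually.of_forall fun x => le_max_right _ _
      rw [hasFiniteIntegral_iff_ofReal hnn0]
      have e : (fun x => ENNReal.ofReal (max (W (F₀ + grad ϑ x)) 0))
          = fun x => ENNReal.ofReal (W (F₀ + grad ϑ x)) := by
        funext x
        rcases le_total 0 (W (F₀ + grad ϑ x)) with hx | hx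
        · rw [max_eq_left hx]
        · rw [max_eq_right hx, ENNReal.ofReal_of_nonpos hx, ENNReal.ofReal_zero]
      rw [e]
      exact hfin.lt_top
    refine (p1.add i1.norm).mono hmeas ?_
    filter_upwards [hle] with x hx
    simp only [Pi.add_apply]
    have hnn : 0 ≤ max (W (F₀ + grad ϑ x)) 0 + ‖n x‖ :=
      add_nonneg (le_max_right _ _) (norm_nonneg _)
    rw [Real.norm_eq_abs, Real.norm_of_nonneg hnn, abs_le, Real.norm_eq_abs]
    constructor
    · have := neg_abs_le (n x)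
      have h5 : (0 : ℝ) ≤ max (W (F₀ + grad ϑ x)) 0 := le_max_right _ _
      linarith
    · have := abs_nonneg (n x)
      have h5 : W (F₀ + grad ϑ x) ≤ max (W (F₀ + grad ϑ x)) 0 := le_max_left _ _
      linarith
  refine ⟨hint, ?_⟩
  rw [h1, ← i2]
  exact integral_mono_ae i1 hint hle

end Pool.Agent.H64.CG
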