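import Pool.Agent.H64.CG.Alg

/-! # Quadratic forms of the Cauchy-Green tensor: consequences of rank-one convexity -/

set_option autoImplicit false

open Set Filter Topology Matrix
open Pool.Agent.W5h27.MO (M2)

namespace Pool.Agent.H64.CG

/-- rank-one convexity on the matrices with determinant in `I` -/
def SegI (I : Set ℝ) (W : M2 → ℝ) : Prop := ∀ F H : M2, H.det = 0 → F.det ∈ I → (F + H).det ∈ I →
  ∀ t : ℝ, 0 ≤ t → t ≤ 1 → W (F + t • H) ≤ (1 - t) * W F + t * W (F + H)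

/-- the entries of `Fᵀ F` -/
def cg (F : M2) : Fin 3 → ℝ :=
  ![F 0 0 ^ 2 + F 1 0 ^ 2, F 0 1 ^ 2 + F 1 1 ^ 2, F 0 0 * F 0 1 + F 1 0 * F 1 1]

theorem cg_rows (F : M2) : cg F = sq (F 0) + sq (F 1) := by
  funext i
  fin_cases i <;> simp [cg, sq]

/-- the energies -/
def En (q : Co) (T : M2 →ₗ[ℝ] M2 →ₗ[ℝ] ℝ) (l : M2 →ₗ[ℝ] ℝ) (f : ℝ → ℝ) (F : M2) : ℝ :=
  bf q (cg F) (cg F) + T F F + l F + f F.det

theorem lim0 {a b c : ℝ} (h : ∀ ε : ℝ, 0 < ε → ε ≤ 1 → 0 ≤ a + b * ε + c * ε ^ 2) : 0 ≤ a := by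
  have h1 : Tendsto (fun ε : ℝ => a + b * ε + c * ε ^ 2) (𝓝[>] 0) (𝓝 (a + b * 0 + c * 0 ^ 2)) := by
    apply Tendsto.mono_left _ nhdsWithin_le_nhds
    exact Continuous.tendsto (by fun_prop) 0
  have h2 := ge_of_tendsto (b := (0:ℝ)) h1 (by
    filter_upwards [Ioc_mem_nhdsGT (zero_lt_one' ℝ)] with ε hε
    exact h ε hε.1 hε.2)
  simpa using h2

variable {I : Set ℝ} {q : Co} {T : M2 →ₗ[ℝ] M2 →ₗ[ℝ] ℝ} {l : M2 →ₗ[ℝ] ℝ} {f : ℝ → ℝ}

/-- second difference -/
theorem SegI.mid {W : M2 → ℝ} (hW : SegI I W) (F H : M2) (hH : H.det = 0)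
    (h1 : (F - H).det ∈ I) (h2 : (F + H).det ∈ I) :
    0 ≤ W (F + H) + W (F - H) - 2 * W F := by
  have h := hW (F - H) ((2:ℝ) • H) (by rw [det_smul, hH]; simp) h1
    (by
      have e : F - H + (2:ℝ) • H = F + H := by rw [two_smul]; abel
      rw [e]; exact h2) (1/2) (by norm_num) (by norm_num)
  have e1 : F - H + (1 / 2 : ℝ) • (2:ℝ) • H = F := by
    rw [smul_smul]; norm_num
  have e2 : F - H + (2:ℝ) • H = F + H := by rw [two_smul]; abel
  rw [e1, e2] at h
  linarith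

/-- the line family -/
theorem line_fam (hI : SegI I (En q T l f)) {v n : Fin 2 → ℝ} (hvn : wd v n = 1) {x y : ℝ}
    (hx : x ∈ I) (hy : y ∈ I) {t : ℝ} (ht0 : 0 ≤ t) (ht1 : t ≤ 1) :
    0 ≤ (1 - t) * f x + t * f y - f ((1 - t) * x + t * y)
      + 2 * bf q (sq v) (sq n) * (t * (1 - t) * (x - y) ^ 2) := by
  have hvn' : v 0 * n 1 - v 1 * n 0 = 1 := hvn
  set N : M2 := !![n 0, n 1; 0, 0] with hN
  set V : M2 := !![0, 0; v 0, v 1] with hV
  set z : ℝ := (1 - t) * x + t * y with hz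
  refine lim0 (b := T N N * (t * (1 - t) * (x - y) ^ 2))
    (c := bf q (sq n) (sq n) * ((1 - t) * x ^ 4 + t * y ^ 4 - z ^ 4)) ?_
  intro ε hε hε1
  obtain ⟨s, hs0, hs⟩ : ∃ s : ℝ, 0 < s ∧ s ^ 2 = ε⁻¹ :=
    ⟨Real.sqrt ε⁻¹, Real.sqrt_pos.2 (by positivity), Real.sq_sqrt (by positivity)⟩
  have hse : s ^ 2 * ε = 1 := by rw [hs]; field_simp
  -- the matrices
  have hform : ∀ w : ℝ, ∀ F : M2, F = (-(w / s)) • N + s • V →
      F.det = w ∧ En q T l f F = w ^ 4 * ε ^ 2 * bf q (sq n) (sq n)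
        + 2 * w ^ 2 * bf q (sq v) (sq n) + s ^ 4 * bf q (sq v) (sq v)
        + (w ^ 2 * ε * T N N - w * (T N V + T V N) + s ^ 2 * T V V)
        + (-(w / s) * l N + s * l V) + f w := by
    intro w F hF
    have hdet : F.det = w := by
      rw [hF, det_fin_two]
      simp only [hN, hV, Matrix.add_apply, Matrix.smul_apply, smul_eq_mul, Matrix.of_apply,
        Matrix.cons_val', Matrix.cons_val_zero, Matrix.cons_val_one, Matrix.cons_val_fin_one]
      have e2 : w / s * s = w := by field_simp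
      linear_combination (n 1 * v 0 - n 0 * v 1) * e2 + w * hvn'
    refine ⟨hdet, ?_⟩
    have hcg : cg F = (w ^ 2 * ε) • sq n + (s ^ 2) • sq v := by
      have e1 : (w / s) ^ 2 = w ^ 2 * ε := by
        rw [div_pow, hs]; field_simp
      funext i
      have hh : ∀ a b : ℝ, (w / s * a) * (w / s * b) = w ^ 2 * ε * (a * b) := by
        intro a b
        rw [← e1]; ring
      fin_cases i
      · simp [cg, hF, hN, hV, sq, mul_pow, e1]
      · simp [cg, hF, hN, hV, sq, mul_pow, e1]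
      · simp [cg, hF, hN, hV, sq]
        rw [hh]; ring
    unfold En
    rw [hdet, hcg]
    have hT : T F F = w ^ 2 * ε * T N N - w * (T N V + T V N) + s ^ 2 * T V V := by
      rw [hF]
      simp only [map_add, map_smul, LinearMap.add_apply, LinearMap.smul_apply, smul_eq_mul]
      have e1 : (w / s) ^ 2 = w ^ 2 * ε := by
        rw [div_pow, hs]; field_simp
      have e2 : w / s * s = w := by field_simp
      linear_combination T N N * e1 - (T N V + T V N) * e2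
    have hl : l F = -(w / s) * l N + s * l V := by
      rw [hF]; simp only [map_add, map_smul, smul_eq_mul]
    rw [hT, hl]
    have hb : bf q ((w ^ 2 * ε) • sq n + (s ^ 2) • sq v) ((w ^ 2 * ε) • sq n + (s ^ 2) • sq v)
        = w ^ 4 * ε ^ 2 * bf q (sq n) (sq n) + 2 * w ^ 2 * (s ^ 2 * ε) * bf q (sq v) (sq n)
          + s ^ 4 * bf q (sq v) (sq v) := by
      simp only [bf, Pi.add_apply, Pi.smul_apply, smul_eq_mul]
      ring
    rw [hb, hse]
    ring
  obtain ⟨dx, ex⟩ := hform x _ rfl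
  obtain ⟨dy, ey⟩ := hform y _ rfl
  obtain ⟨dz, ez⟩ := hform z _ rfl
  have hH : ((-((y - x) / s)) • N : M2).det = 0 := by
    rw [det_smul]; simp [hN, det_fin_two]
  have e1 : (-(x / s)) • N + s • V + (-((y - x) / s)) • N = (-(y / s)) • N + s • V := by
    have : -(y / s) = -(x / s) + -((y - x) / s) := by ring
    rw [this, add_smul]; abel
  have e2 : (-(x / s)) • N + s • V + t • ((-((y - x) / s)) • N) = (-(z / s)) • N + s • V := by
    have : -(z / s) = -(x / s) + t * -((y - x) / s) := by rw [hz]; ring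
    rw [this, add_smul, smul_smul]; abel
  have h := hI ((-(x / s)) • N + s • V) ((-((y - x) / s)) • N) hH (by rw [dx]; exact hx)
    (by rw [e1, dy]; exact hy) t ht0 ht1
  rw [e1, e2, ex, ey, ez] at h
  have hz2 : (1 - t) * x ^ 2 + t * y ^ 2 - z ^ 2 = t * (1 - t) * (x - y) ^ 2 := by
    rw [hz]; ring
  have hz1 : (1 - t) * (x / s) + t * (y / s) = z / s := by rw [hz]; ring
  have hlin2 : (1 - t) * x + t * y = z := hz.symm
  have key := sub_nonneg.2 h
  refine le_of_le_of_eq key ?_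
  linear_combination (2 * bf q (sq v) (sq n) + T N N * ε) * hz2 - (T N V + T V N) * hlin2
    - l N * hz1

end Pool.Agent.H64.CG
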