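import Pool.Agent.H64.CG.Rc

/-! # Quadratic forms of the Cauchy-Green tensor: necessary conditions -/

set_option autoImplicit false

open Set Filter Topology Matrix
open Pool.Agent.W5h27.MO (M2)

namespace Pool.Agent.H64.CG

variable {I : Set ℝ} {q : Co} {T : M2 →ₗ[ℝ] M2 →ₗ[ℝ] ℝ} {l : M2 →ₗ[ℝ] ℝ} {f : ℝ → ℝ}

theorem f_conv (hc : Convex ℝ I) {a : ℝ}
    (ha : ∀ x ∈ I, ∀ y ∈ I, ∀ t : ℝ, 0 ≤ t → t ≤ 1 →
      a * (t * (1 - t) * (x - y) ^ 2) ≤ (1 - t) * f x + t * f y - f ((1 - t) * x + t * y)) :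
    ConvexOn ℝ I (fun x => f x - a * x ^ 2) := by
  refine ⟨hc, fun x hx y hy s t hs ht hst => ?_⟩
  have h := ha x hx y hy t ht (by linarith)
  have hs' : s = 1 - t := by linarith
  subst hs'
  simp only [smul_eq_mul]
  nlinarith [h]

theorem f_cont (hI : SegI I (En q T l f)) (hpos : Ioi 0 ⊆ I) : ContinuousAt f 1 := by
  have hw : wd ![1, 0] ![0, 1] = 1 := by simp [wd]
  set κ := 2 * bf q (sq ![1, 0]) (sq ![0, 1]) with hκ
  have h1 : ConvexOn ℝ (Ioi (0:ℝ)) (fun x => f x - (-κ) * x ^ 2) := by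
    refine ⟨convex_Ioi 0, fun x hx y hy s t hs ht hst => ?_⟩
    have h := line_fam hI hw (hpos hx) (hpos hy) ht (by linarith)
    have hs' : s = 1 - t := by linarith
    subst hs'
    simp only [smul_eq_mul]
    rw [← hκ] at h
    nlinarith [h]
  have h2 : ContinuousAt (fun x => f x - (-κ) * x ^ 2) 1 :=
    (h1.continuousOn isOpen_Ioi).continuousAt (Ioi_mem_nhds one_pos)
  have h3 : ContinuousAt (fun x => (f x - (-κ) * x ^ 2) + (-κ) * x ^ 2) 1 :=
    h2.add (Continuous.continuousAt (by fun_prop))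
  simpa using h3

theorem sq_comb (x y : ℝ) (u n : Fin 2 → ℝ) :
    sq (x • u + y • n) = x ^ 2 • sq u + y ^ 2 • sq n + (2 * x * y) • sp u n := by
  funext i
  fin_cases i <;> simp [sq, sp] <;> ring

theorem sig (hI : SegI I (En q T l f)) (hpos : Ioi 0 ⊆ I) (u n : Fin 2 → ℝ) :
    0 ≤ 4 * bf q (sq u) (sq n) + 8 * bf q (sp u n) (sp u n) := by
  by_cases hu : u = 0
  · subst hu; simp [bf, sq, sp]
  have hu2 : 0 < u 0 ^ 2 + u 1 ^ 2 := by
    rcases not_and_or.1 (fun h : u 0 = 0 ∧ u 1 = 0 => hu (by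
      funext i; fin_cases i <;> simp [h.1, h.2])) with h | h
    · have := sq_pos_of_ne_zero h; nlinarith [sq_nonneg (u 1)]
    · have := sq_pos_of_ne_zero h; nlinarith [sq_nonneg (u 0)]
  set v : Fin 2 → ℝ := ![-u 1 / (u 0 ^ 2 + u 1 ^ 2), u 0 / (u 0 ^ 2 + u 1 ^ 2)] with hv
  have huv : u 0 * v 1 - u 1 * v 0 = 1 := by
    simp only [hv, Matrix.cons_val_zero, Matrix.cons_val_one]
    field_simp
    ring
  obtain ⟨c, hcdef⟩ : ∃ c, c = n 0 * v 1 - n 1 * v 0 := ⟨_, rfl⟩
  have hf := f_cont hI hpos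
  have hlim : Tendsto (fun ε : ℝ => 4 * bf q (sq u) (sq n) + 8 * bf q (sp u n) (sp u n)
      + 2 * ε * T !![n 0, n 1; 0, 0] !![n 0, n 1; 0, 0]
      + ε ^ 2 * (4 * bf q (sq v) (sq n) + 2 * bf q (sq n) (sq n))
      + (f (1 + ε * c) + f (1 - ε * c) - 2 * f 1)) (𝓝[>] 0)
      (𝓝 (4 * bf q (sq u) (sq n) + 8 * bf q (sp u n) (sp u n)
      + 2 * 0 * T !![n 0, n 1; 0, 0] !![n 0, n 1; 0, 0]
      + 0 ^ 2 * (4 * bf q (sq v) (sq n) + 2 * bf q (sq n) (sq n))
      + (f 1 + f 1 - 2 * f 1))) := by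
    have p1 : Tendsto (fun ε : ℝ => f (1 + ε * c)) (𝓝 0) (𝓝 (f 1)) := by
      have : Tendsto (fun ε : ℝ => 1 + ε * c) (𝓝 0) (𝓝 1) := by
        have := Continuous.tendsto (f := fun ε : ℝ => 1 + ε * c) (by fun_prop) 0
        simpa using this
      exact hf.tendsto.comp this
    have p2 : Tendsto (fun ε : ℝ => f (1 - ε * c)) (𝓝 0) (𝓝 (f 1)) := by
      have : Tendsto (fun ε : ℝ => 1 - ε * c) (𝓝 0) (𝓝 1) := by
        have := Continuous.tendsto (f := fun ε : ℝ => 1 - ε * c) (by fun_prop) 0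
        simpa using this
      exact hf.tendsto.comp this
    have p3 : Tendsto (fun ε : ℝ => 4 * bf q (sq u) (sq n) + 8 * bf q (sp u n) (sp u n)
      + 2 * ε * T !![n 0, n 1; 0, 0] !![n 0, n 1; 0, 0]
      + ε ^ 2 * (4 * bf q (sq v) (sq n) + 2 * bf q (sq n) (sq n))) (𝓝 0) (𝓝
      (4 * bf q (sq u) (sq n) + 8 * bf q (sp u n) (sp u n)
      + 2 * 0 * T !![n 0, n 1; 0, 0] !![n 0, n 1; 0, 0]
      + 0 ^ 2 * (4 * bf q (sq v) (sq n) + 2 * bf q (sq n) (sq n)))) :=
      Continuous.tendsto (by fun_prop) 0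
    exact (p3.add ((p1.add p2).sub tendsto_const_nhds)).mono_left nhdsWithin_le_nhds
  have hev : ∀ᶠ ε : ℝ in 𝓝[>] 0, 0 < ε ∧ 0 < 1 + ε * c ∧ 0 < 1 - ε * c := by
    have t1 : Tendsto (fun ε : ℝ => 1 + ε * c) (𝓝[>] 0) (𝓝 1) := by
      have := (Continuous.tendsto (f := fun ε : ℝ => 1 + ε * c) (by fun_prop) 0)
      simp only [zero_mul, add_zero] at this
      exact this.mono_left nhdsWithin_le_nhds
    have t2 : Tendsto (fun ε : ℝ => 1 - ε * c) (𝓝[>] 0) (𝓝 1) := by
      have := (Continuous.tendsto (f := fun ε : ℝ => 1 - ε * c) (by fun_prop) 0)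
      simp only [zero_mul, sub_zero] at this
      exact this.mono_left nhdsWithin_le_nhds
    filter_upwards [self_mem_nhdsWithin, t1.eventually (lt_mem_nhds one_pos),
      t2.eventually (lt_mem_nhds one_pos)] with ε h1 h2 h3
    exact ⟨h1, h2, h3⟩
  have hge := ge_of_tendsto (b := (0:ℝ)) hlim (by
    filter_upwards [hev] with ε hε
    obtain ⟨hε, hd1, hd2⟩ := hε
    obtain ⟨s, hs0, hs⟩ : ∃ s : ℝ, 0 < s ∧ s ^ 2 = ε :=
      ⟨Real.sqrt ε, Real.sqrt_pos.2 hε, Real.sq_sqrt hε.le⟩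
    set F : M2 := !![u 0 / s, u 1 / s; s * v 0, s * v 1] with hF
    set N : M2 := !![n 0, n 1; 0, 0] with hN
    have hsi : u 0 / s * s = u 0 := by field_simp
    have hsi1 : u 1 / s * s = u 1 := by field_simp
    have dF : F.det = 1 := by
      simp only [hF, det_fin_two_of]
      linear_combination v 1 * hsi - v 0 * hsi1 + huv
    have dFp : (F + s • N).det = 1 + ε * c := by
      simp only [hF, hN, det_fin_two, Matrix.add_apply, Matrix.smul_apply, smul_eq_mul,
        Matrix.of_apply, Matrix.cons_val', Matrix.cons_val_zero, Matrix.cons_val_one,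
        Matrix.cons_val_fin_one]
      rw [hcdef]
      linear_combination v 1 * hsi - v 0 * hsi1 + huv + (n 0 * v 1 - n 1 * v 0) * hs
    have dFm : (F - s • N).det = 1 - ε * c := by
      simp only [hF, hN, det_fin_two, Matrix.sub_apply, Matrix.smul_apply, smul_eq_mul,
        Matrix.of_apply, Matrix.cons_val', Matrix.cons_val_zero, Matrix.cons_val_one,
        Matrix.cons_val_fin_one]
      rw [hcdef]
      linear_combination v 1 * hsi - v 0 * hsi1 + huv - (n 0 * v 1 - n 1 * v 0) * hs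
    have hm := hI.mid F (s • N) (by rw [det_smul]; simp [hN, det_fin_two])
      (by rw [dFm]; exact hpos hd2) (by rw [dFp]; exact hpos hd1)
    have hs1 : s⁻¹ ^ 2 * s ^ 2 = 1 := by field_simp
    have hs2 : s⁻¹ * s = 1 := by field_simp
    have c0 : cg F = s⁻¹ ^ 2 • sq u + s ^ 2 • sq v := by
      have r0 : F 0 = s⁻¹ • u + (0:ℝ) • n := by
        funext i; fin_cases i <;> simp [hF] <;> ring
      have r1 : F 1 = (0:ℝ) • u + s • v := by
        funext i; fin_cases i <;> simp [hF]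
      rw [cg_rows, r0, r1, sq_comb, sq_comb]
      simp
    have cp : cg (F + s • N) = s⁻¹ ^ 2 • sq u + s ^ 2 • sq v + s ^ 2 • sq n + (2:ℝ) • sp u n := by
      have r0 : (F + s • N) 0 = s⁻¹ • u + s • n := by
        funext i; fin_cases i <;> simp [hF, hN] <;> ring
      have r1 : (F + s • N) 1 = (0:ℝ) • u + s • v := by
        funext i; fin_cases i <;> simp [hF, hN]
      rw [cg_rows, r0, r1, sq_comb, sq_comb, mul_assoc (2:ℝ), hs2]
      simp only [mul_one, zero_smul, mul_zero, zero_mul, ne_eq, OfNat.ofNat_ne_zero,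
        not_false_eq_true, zero_pow, zero_add, add_zero]
      abel
    have cm : cg (F - s • N) = s⁻¹ ^ 2 • sq u + s ^ 2 • sq v + s ^ 2 • sq n - (2:ℝ) • sp u n := by
      have r0 : (F - s • N) 0 = s⁻¹ • u + (-s) • n := by
        funext i; fin_cases i <;> simp [hF, hN] <;> ring
      have r1 : (F - s • N) 1 = (0:ℝ) • u + s • v := by
        funext i; fin_cases i <;> simp [hF, hN]
      have e : 2 * s⁻¹ * -s = -2 := by field_simp
      rw [cg_rows, r0, r1, sq_comb, sq_comb, e]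
      simp only [mul_one, zero_smul, mul_zero, zero_mul, ne_eq, OfNat.ofNat_ne_zero,
        not_false_eq_true, zero_pow, zero_add, add_zero, neg_smul, neg_sq]
      abel
    have hb : bf q (cg (F + s • N)) (cg (F + s • N)) + bf q (cg (F - s • N)) (cg (F - s • N))
        - 2 * bf q (cg F) (cg F) = 4 * (s⁻¹ ^ 2 * s ^ 2) * bf q (sq u) (sq n)
          + 8 * bf q (sp u n) (sp u n)
          + (s ^ 2) ^ 2 * (4 * bf q (sq v) (sq n) + 2 * bf q (sq n) (sq n)) := by
      rw [c0, cp, cm]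
      simp only [bf, Pi.add_apply, Pi.sub_apply, Pi.smul_apply, smul_eq_mul]
      ring
    have hT : T (F + s • N) (F + s • N) + T (F - s • N) (F - s • N) - 2 * T F F
        = 2 * s ^ 2 * T N N := by
      simp only [map_add, map_sub, map_smul, LinearMap.add_apply, LinearMap.sub_apply,
        LinearMap.smul_apply, smul_eq_mul]
      ring
    have hl : l (F + s • N) + l (F - s • N) - 2 * l F = 0 := by
      simp only [map_add, map_sub]; ring
    rw [hs1, hs] at hb
    rw [hs] at hT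
    unfold En at hm
    rw [dFp, dFm, dF] at hm
    linarith)
  simpa [two_mul] using hge

end Pool.Agent.H64.CG
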